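import Mathlib
import Pool.Agent.Lib.MP_343fe0_pr.Defs

set_option autoImplicit false

/-! Averages over the trace of a word. -/

namespace Pool.Agent.Lib.MP_343fe0_pr.Ju

open Finset

/-- The average of `g` over the trace of a list (each entry kept with probability `1/2`). -/
noncomputable def Ev : List Bool → (List Bool → ℝ) → ℝ
  | [], g => g []
  | b :: x, g => (Ev x g + Ev x (fun w => g (b :: w))) / 2

theorem Ev_nil (g : List Bool → ℝ) : Ev [] g = g [] := rfl

theorem Ev_cons (b : Bool) (x : List Bool) (g : List Bool → ℝ) :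
    Ev (b :: x) g = (Ev x g + Ev x (fun w => g (b :: w))) / 2 := rfl

theorem Ev_append (x y : List Bool) (g : List Bool → ℝ) :
    Ev (x ++ y) g = Ev x (fun u => Ev y (fun v => g (u ++ v))) := by
  induction x generalizing g with
  | nil => rfl
  | cons b x ih => rw [List.cons_append, Ev_cons, Ev_cons, ih, ih]; rfl

theorem Ev_add (x : List Bool) (g g' : List Bool → ℝ) :
    Ev x (fun u => g u + g' u) = Ev x g + Ev x g' := by
  induction x generalizing g g' with
  | nil => rfl
  | cons b x ih => rw [Ev_cons, Ev_cons, Ev_cons, ih, ih]; ring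

theorem Ev_mul (x : List Bool) (c : ℝ) (g : List Bool → ℝ) :
    Ev x (fun u => c * g u) = c * Ev x g := by
  induction x generalizing g with
  | nil => rfl
  | cons b x ih => rw [Ev_cons, Ev_cons, ih, ih]; ring

theorem Ev_sub (x : List Bool) (g g' : List Bool → ℝ) :
    Ev x (fun u => g u - g' u) = Ev x g - Ev x g' := by
  induction x generalizing g g' with
  | nil => rfl
  | cons b x ih => rw [Ev_cons, Ev_cons, Ev_cons, ih, ih]; ring

theorem Ev_const (x : List Bool) (c : ℝ) : Ev x (fun _ => c) = c := by
  induction x with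
  | nil => rfl
  | cons b x ih => rw [Ev_cons, ih]; ring

theorem Ev_mono (x : List Bool) {g g' : List Bool → ℝ} (h : ∀ u, g u ≤ g' u) :
    Ev x g ≤ Ev x g' := by
  induction x generalizing g g' with
  | nil => exact h _
  | cons b x ih =>
    rw [Ev_cons, Ev_cons]
    have h1 := ih h
    have h2 := ih (g := fun w => g (b :: w)) (g' := fun w => g' (b :: w)) fun u => h _
    linarith

theorem Ev_abs_le (x : List Bool) {g g' : List Bool → ℝ} (h : ∀ u, |g u| ≤ g' u) :
    |Ev x g| ≤ Ev x g' := by
  rw [abs_le]
  refine ⟨?_, Ev_mono x fun u => (abs_le.1 (h u)).2⟩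
  have h1 := Ev_mono x (g := fun u => (-1) * g' u) (g' := g) fun u => by
    have := (abs_le.1 (h u)).1
    linarith
  rw [Ev_mul] at h1
  linarith

theorem Ev_abs (x : List Bool) {g : List Bool → ℝ} {c : ℝ} (h : ∀ u, |g u| ≤ c) :
    |Ev x g| ≤ c := by
  have := Ev_abs_le x (g' := fun _ => c) h
  rwa [Ev_const] at this

theorem Ev_dist (x : List Bool) {g g' : List Bool → ℝ} {c : ℝ} (h : ∀ u, |g u - g' u| ≤ c) :
    |Ev x g - Ev x g'| ≤ c := by
  rw [← Ev_sub]
  exact Ev_abs x h

theorem Ev_comm (x y : List Bool) (G : List Bool → List Bool → ℝ) :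
    Ev x (fun u => Ev y (fun v => G u v)) = Ev y (fun v => Ev x (fun u => G u v)) := by
  induction x generalizing G with
  | nil => rfl
  | cons b x ih =>
    have h : (fun v => Ev (b :: x) (fun u => G u v)) = fun v => (1 / 2 : ℝ) *
        (Ev x (fun u => G u v) + Ev x (fun u => G (b :: u) v)) := by
      funext v
      rw [Ev_cons]
      ring
    rw [Ev_cons, ih, ih, h, Ev_mul, Ev_add]
    ring

theorem Ev_congr (x : List Bool) {g g' : List Bool → ℝ}
    (h : ∀ u, u.length ≤ x.length → g u = g' u) : Ev x g = Ev x g' := by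
  induction x generalizing g g' with
  | nil => exact h _ le_rfl
  | cons b x ih =>
    rw [Ev_cons, Ev_cons, ih fun u hu => h u (by simp; omega),
      ih (g := fun w => g (b :: w)) (g' := fun w => g' (b :: w)) fun u hu => h _ (by simpa)]

theorem Ev_sum {ι : Type} (x : List Bool) (s : Finset ι) (g : ι → List Bool → ℝ) :
    Ev x (fun u => ∑ i ∈ s, g i u) = ∑ i ∈ s, Ev x (g i) := by
  classical
  induction s using Finset.induction_on with
  | empty => simp [Ev_const]
  | insert a s ha ih =>
    simp only [sum_insert ha]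
    rw [Ev_add, ih]

theorem Ev_reverse (x : List Bool) (g : List Bool → ℝ) :
    Ev x.reverse g = Ev x (fun u => g u.reverse) := by
  induction x generalizing g with
  | nil => rfl
  | cons b x ih =>
    have h : (fun u : List Bool => Ev [b] (fun v => g (u.reverse ++ v))) =
        fun u => (1 / 2 : ℝ) * (g u.reverse + g (b :: u).reverse) := by
      funext u
      rw [Ev_cons, Ev_nil, Ev_nil, List.append_nil, List.reverse_cons]
      ring
    rw [List.reverse_cons, Ev_append, ih, Ev_cons, h, Ev_mul, Ev_add]
    ring

theorem Ev_len (x y : List Bool) (h : x.length = y.length) (φ : ℕ → ℝ) :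
    Ev x (fun u => φ u.length) = Ev y (fun u => φ u.length) := by
  induction x generalizing y φ with
  | nil =>
    rw [List.length_nil, eq_comm, List.length_eq_zero_iff] at h
    rw [h]
  | cons b x ih =>
    obtain _ | ⟨c, y⟩ := y
    · simp at h
    · have h' : x.length = y.length := by simpa using h
      rw [Ev_cons, Ev_cons, ih y h' φ]
      have := ih y h' fun l => φ (l + 1)
      simp only [List.length_cons]
      rw [this]

/-- The zero word. -/
def zw (n : ℕ) : List Bool := List.replicate n false

theorem zw_length (n : ℕ) : (zw n).length = n := List.length_replicate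

theorem zw_succ (n : ℕ) : zw (n + 1) = false :: zw n := rfl

theorem zw_add (n k : ℕ) : zw (n + k) = zw n ++ zw k := List.replicate_add n k false

theorem zw_reverse (n : ℕ) : (zw n).reverse = zw n := List.reverse_replicate

theorem Ev_zw (n : ℕ) (g : List Bool → ℝ) : Ev (zw n) g = Ev (zw n) (fun v => g (zw v.length)) := by
  induction n generalizing g with
  | zero => rfl
  | succ n ih => rw [zw_succ, Ev_cons, Ev_cons, ih, ih fun w => g (false :: w)]; rfl

theorem link_cons {n : ℕ} (x : Fin (n + 1) → Bool) (b : Bool) (s : Fin n → Bool) :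
    trace x (Fin.cons b s) =
      if b then x 0 :: trace (fun i => x i.succ) s else trace (fun i => x i.succ) s := by
  cases b <;> simp [trace, List.finRange_succ, List.filter_map, Function.comp_def]

theorem link {n : ℕ} (x : Fin n → Bool) (g : List Bool → ℝ) :
    ∑ s : Fin n → Bool, g (trace x s) = 2 ^ n * Ev (List.ofFn x) g := by
  induction n generalizing g with
  | zero => simp [trace, Ev_nil]
  | succ n ih =>
    rw [← (Fin.consEquiv fun _ => Bool).sum_comp, Fintype.sum_prod_type, Fintype.sum_bool,
      List.ofFn_succ, Ev_cons]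
    simp only [Fin.consEquiv, Equiv.coe_fn_mk, link_cons, if_true, Bool.false_eq_true, if_false]
    rw [ih, ih (fun i => x i.succ) fun w => g (x 0 :: w)]
    ring

theorem Ev_exp (x : List Bool) (η : ℝ) :
    Ev x (fun u => Real.exp (η * (u.length - x.length / 2))) ≤ Real.exp (x.length * η ^ 2 / 8) := by
  induction x with
  | nil => simp [Ev_nil]
  | cons b x ih =>
    have e1 : (fun u : List Bool => Real.exp (η * (u.length - (b :: x).length / 2))) =
        fun u => Real.exp (-(η / 2)) * Real.exp (η * (u.length - x.length / 2)) := by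
      funext u
      rw [← Real.exp_add, List.length_cons]
      push_cast
      ring_nf
    have e2 : (fun u : List Bool => Real.exp (η * ((b :: u).length - (b :: x).length / 2))) =
        fun u => Real.exp (η / 2) * Real.exp (η * (u.length - x.length / 2)) := by
      funext u
      rw [← Real.exp_add, List.length_cons, List.length_cons]
      push_cast
      ring_nf
    rw [Ev_cons, e2, e1, Ev_mul, Ev_mul]
    have h1 := Real.cosh_le_exp_half_sq (η / 2)
    rw [Real.cosh_eq] at h1
    have h2 : Real.exp ((b :: x).length * η ^ 2 / 8) =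
        Real.exp ((η / 2) ^ 2 / 2) * Real.exp (x.length * η ^ 2 / 8) := by
      rw [← Real.exp_add, List.length_cons]
      push_cast
      ring_nf
    have h3 : 0 ≤ Ev x (fun u => Real.exp (η * (u.length - x.length / 2))) := by
      have := Ev_mono x (g := fun _ => 0)
        (g' := fun u => Real.exp (η * (u.length - x.length / 2))) fun u => (Real.exp_pos _).le
      rwa [Ev_const] at this
    rw [h2]
    calc _ = (Real.exp (η / 2) + Real.exp (-(η / 2))) / 2 *
          Ev x (fun u => Real.exp (η * (u.length - x.length / 2))) := by ring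
      _ ≤ _ := mul_le_mul h1 ih h3 (Real.exp_pos _).le

/-- Chernoff bound for the length of a trace, either side (`σ = 1` or `σ = -1`). -/
theorem Ev_tail (x : List Bool) {σ δ L : ℝ} (hσ : σ ^ 2 = 1) (hδ : 0 ≤ δ) (hL : 0 < L)
    (hx : (x.length : ℝ) ≤ L) (p : List Bool → Prop) [DecidablePred p]
    (hp : ∀ u, p u → δ ≤ σ * (u.length - x.length / 2)) :
    Ev x (fun u => if p u then 1 else 0) ≤ Real.exp (-(2 * δ ^ 2 / L)) := by
  set η := 4 * δ / L with hη
  have hη0 : 0 ≤ η := by positivity
  have h1 := Ev_mono x (g := fun u => if p u then 1 else 0)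
    (g' := fun u => Real.exp (-(η * δ)) * Real.exp (η * σ * (u.length - x.length / 2))) fun u => by
      rw [← Real.exp_add]
      split_ifs with h
      · have := mul_le_mul_of_nonneg_left (hp u h) hη0
        exact Real.one_le_exp (by linarith)
      · exact (Real.exp_pos _).le
  rw [Ev_mul] at h1
  refine h1.trans ((mul_le_mul_of_nonneg_left (Ev_exp x (η * σ)) (Real.exp_pos _).le).trans ?_)
  rw [← Real.exp_add, Real.exp_le_exp, mul_pow, hσ, mul_one]
  have h2 : (x.length : ℝ) * η ^ 2 ≤ L * η ^ 2 := mul_le_mul_of_nonneg_right hx (sq_nonneg _)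
  have h3 : L * η ^ 2 = 16 * δ ^ 2 / L := by rw [hη]; field_simp; ring
  have h4 : η * δ = 4 * δ ^ 2 / L := by rw [hη]; ring
  have h5 : 16 * δ ^ 2 / L = 8 * (2 * δ ^ 2 / L) := by ring
  have h6 : 4 * δ ^ 2 / L = 2 * (2 * δ ^ 2 / L) := by ring
  linarith

end Pool.Agent.Lib.MP_343fe0_pr.Ju
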