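import Mathlib
import Pool.Agent.Lib.MP_343fe0_pr.Ju.Basic

set_option autoImplicit false

/-! Statistics reading the length and boundedly many entries; second-order terms. -/

namespace Pool.Agent.Lib.MP_343fe0_pr.Ju

open Finset

/-- `g` is bounded by one and, on words of each length, reads at most `a` entries. -/
def J (a : ℕ) (g : List Bool → ℝ) : Prop :=
  (∀ u, |g u| ≤ 1) ∧ ∀ l : ℕ, ∃ P : Finset ℕ, P.card ≤ a ∧
    ∀ u v : List Bool, u.length = l → v.length = l → (∀ p ∈ P, u[p]? = v[p]?) → g u = g v

/-- All statistics of order `a` have the same mean, up to `ε`, on the traces of `x` and `y`. -/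
def Mt (a : ℕ) (ε : ℝ) (x y : List Bool) : Prop :=
  x.length = y.length ∧ ∀ g, J a g → |Ev y g - Ev x g| ≤ ε

theorem J.mono {a b : ℕ} {g : List Bool → ℝ} (h : J a g) (hab : a ≤ b) : J b g :=
  ⟨h.1, fun l => (h.2 l).imp fun _ hP => ⟨hP.1.trans hab, hP.2⟩⟩

theorem get_left {u v : List Bool} (w : List Bool) (h : u.length = v.length) (i : ℕ)
    (hi : i < u.length → u[i]? = v[i]?) : (u ++ w)[i]? = (v ++ w)[i]? := by
  rw [List.getElem?_append, List.getElem?_append, ← h]
  split_ifs with h1
  · exact hi h1
  · rfl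

theorem get_right {u v : List Bool} (w : List Bool) (i : ℕ)
    (hi : w.length ≤ i → u[i - w.length]? = v[i - w.length]?) : (w ++ u)[i]? = (w ++ v)[i]? := by
  rw [List.getElem?_append, List.getElem?_append]
  split_ifs with h1
  · rfl
  · exact hi (not_lt.1 h1)

theorem J.left {a : ℕ} {g : List Bool → ℝ} (h : J a g) (w : List Bool) :
    J a (fun u => g (u ++ w)) := by
  refine ⟨fun u => h.1 _, fun l => ?_⟩
  obtain ⟨P, hP, H⟩ := h.2 (l + w.length)
  refine ⟨P, hP, fun u v hu hv huv => H _ _ (by simp [hu]) (by simp [hv]) fun p hp => ?_⟩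
  exact get_left w (hu.trans hv.symm) p fun _ => huv p hp

theorem J.right {a : ℕ} {g : List Bool → ℝ} (h : J a g) (w : List Bool) :
    J a (fun u => g (w ++ u)) := by
  refine ⟨fun u => h.1 _, fun l => ?_⟩
  obtain ⟨P, hP, H⟩ := h.2 (w.length + l)
  refine ⟨P.image (· - w.length), card_image_le.trans hP, fun u v hu hv huv =>
    H _ _ (by simp [hu]) (by simp [hv]) fun p hp => ?_⟩
  exact get_right w p fun _ => huv _ (mem_image_of_mem _ hp)

theorem Mt.append {a : ℕ} {ε : ℝ} {x y : List Bool} (h : Mt a ε x y) (w : List Bool) :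
    Mt a ε (x ++ w) (y ++ w) := by
  refine ⟨by simp [h.1], fun g hg => ?_⟩
  rw [Ev_append, Ev_append, Ev_comm, Ev_comm x]
  exact Ev_dist w fun v => h.2 _ (hg.left v)

/-- The difference functional. -/
noncomputable def Df (x y : List Bool) (g : List Bool → ℝ) : ℝ := Ev y g - Ev x g

theorem Df_abs (x y : List Bool) {g : List Bool → ℝ} {c : ℝ} (h : ∀ u, |g u| ≤ c) :
    |Df x y g| ≤ 2 * c := by
  have h1 := abs_le.1 (Ev_abs x h)
  have h2 := abs_le.1 (Ev_abs y h)
  rw [Df, abs_le]
  constructor <;> linarith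

theorem Df_add (x y : List Bool) (g g' : List Bool → ℝ) :
    Df x y (fun u => g u + g' u) = Df x y g + Df x y g' := by
  rw [Df, Df, Df, Ev_add, Ev_add]
  ring

theorem Ev_Df (w x y : List Bool) (G : List Bool → List Bool → ℝ) :
    Ev w (fun u => Df x y (fun v => G u v)) = Df x y (fun v => Ev w (fun u => G u v)) := by
  simp only [Df]
  rw [Ev_sub, Ev_comm, Ev_comm w x]

theorem Df_comm (x y : List Bool) (G : List Bool → List Bool → ℝ) :
    Df x y (fun u => Df x y (fun v => G u v)) = Df x y (fun v => Df x y (fun u => G u v)) := by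
  rw [Df, Ev_Df, Ev_Df]
  simp only [Df]
  rw [Ev_sub, Ev_sub]
  ring

theorem two_slot {a : ℕ} {ε : ℝ} {x y : List Bool} (h : Mt a ε x y) {g : List Bool → ℝ}
    (hg : J (2 * a + 1) g) (q : List Bool) :
    |Df x y (fun u => Df x y (fun v => g (u ++ (q ++ v))))| ≤ 4 * ε := by
  classical
  choose P hP H using hg.2
  let c : ℕ → ℕ → Prop := fun l l' => ((P (l + (q.length + l'))).filter (· < l)).card ≤ a
  let G1 : List Bool → List Bool → ℝ := fun u v =>
    if c u.length v.length then g (u ++ (q ++ v)) else 0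
  let G2 : List Bool → List Bool → ℝ := fun u v =>
    if c u.length v.length then 0 else g (u ++ (q ++ v))
  have e : (fun u => Df x y (fun v => g (u ++ (q ++ v)))) =
      fun u => Df x y (fun v => G1 u v) + Df x y (fun v => G2 u v) := by
    funext u
    rw [← Df_add]
    congr 1
    funext v
    simp only [G1, G2]
    split_ifs <;> simp
  have h1 : ∀ v, J a (fun u => G1 u v) := by
    intro v
    refine ⟨fun u => ?_, fun l => ?_⟩
    · simp only [G1]
      split_ifs
      · exact hg.1 _
      · simp
    · by_cases hc : c l v.length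
      · refine ⟨_, hc, fun u u' hu hu' huu => ?_⟩
        simp only [G1, hu, hu', if_pos hc]
        refine H (l + (q.length + v.length)) _ _ (by simp [hu]) (by simp [hu']) fun p hp => ?_
        exact get_left _ (hu.trans hu'.symm) p fun hl => huu p (mem_filter.2 ⟨hp, hu ▸ hl⟩)
      · exact ⟨∅, by simp, fun u u' hu hu' _ => by simp only [G1, hu, hu', if_neg hc]⟩
  have h2 : ∀ u, J a (fun v => G2 u v) := by
    intro u
    refine ⟨fun v => ?_, fun l => ?_⟩
    · simp only [G2]
      split_ifs
      · simp
      · exact hg.1 _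
    · by_cases hc : c u.length l
      · exact ⟨∅, by simp, fun v v' hv hv' _ => by simp only [G2, hv, hv', if_pos hc]⟩
      · refine ⟨((P (u.length + (q.length + l))).filter (fun p => ¬ p < u.length)).image
          (fun p => p - u.length - q.length), card_image_le.trans ?_, fun v v' hv hv' hvv => ?_⟩
        · have h3 := card_filter_add_card_filter_not (s := P (u.length + (q.length + l)))
            (fun p => p < u.length)
          have h4 := hP (u.length + (q.length + l))
          simp only [c] at hc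
          omega
        · simp only [G2, hv, hv', if_neg hc]
          refine H (u.length + (q.length + l)) _ _ (by simp [hv]) (by simp [hv']) fun p hp => ?_
          exact get_right _ p fun h5 => get_right _ _ fun _ =>
            hvv _ (mem_image.2 ⟨p, mem_filter.2 ⟨hp, not_lt.2 h5⟩, rfl⟩)
  rw [e, Df_add, Df_comm x y G1]
  have h3 := Df_abs x y (g := fun v => Df x y (fun u => G1 u v)) fun v => h.2 _ (h1 v)
  have h4 := Df_abs x y (g := fun u => Df x y (fun v => G2 u v)) fun u => h.2 _ (h2 u)
  exact (abs_add_le _ _).trans (by linarith)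

theorem second {a : ℕ} {ε : ℝ} {x y : List Bool} (h : Mt a ε x y) {g : List Bool → ℝ}
    (hg : J (2 * a + 1) g) (p q r : List Bool) :
    |(Ev (p ++ (y ++ (q ++ (y ++ r)))) g - Ev (p ++ (y ++ (q ++ (x ++ r)))) g) -
      (Ev (p ++ (x ++ (q ++ (y ++ r)))) g - Ev (p ++ (x ++ (q ++ (x ++ r)))) g)| ≤ 4 * ε := by
  have key : ∀ s t : List Bool, Ev (p ++ (s ++ (q ++ (t ++ r)))) g =
      Ev p (fun p' => Ev q (fun q' => Ev r (fun r' => Ev s (fun u => Ev t (fun v =>
        g (p' ++ ((u ++ (q' ++ v)) ++ r'))))))) := by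
    intro s t
    simp only [Ev_append, List.append_assoc]
    congr 1
    funext p'
    rw [Ev_comm]
    congr 1
    funext q'
    rw [← Ev_comm s r]
    congr 1
    funext u
    rw [Ev_comm]
  rw [key, key, key, key, ← Ev_sub, ← Ev_sub]
  refine Ev_dist p fun p' => ?_
  rw [← Ev_sub, ← Ev_sub]
  refine Ev_dist q fun q' => ?_
  rw [← Ev_sub, ← Ev_sub]
  refine Ev_dist r fun r' => ?_
  have h1 := two_slot h ((hg.right p').left r') q'
  simp only [Df] at h1
  rw [Ev_sub, Ev_sub] at h1
  exact h1

/-- A power of a word. -/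
def pw (x : List Bool) : ℕ → List Bool
  | 0 => []
  | n + 1 => pw x n ++ x

theorem pw_succ (x : List Bool) (n : ℕ) : pw x (n + 1) = pw x n ++ x := rfl

theorem pw_add (x : List Bool) (n k : ℕ) : pw x (n + k) = pw x n ++ pw x k := by
  induction k with
  | zero => simp [pw]
  | succ k ih => rw [← add_assoc, pw_succ, pw_succ, ih, List.append_assoc]

theorem pw_length (x : List Bool) (n : ℕ) : (pw x n).length = n * x.length := by
  induction n with
  | zero => simp [pw]
  | succ n ih => rw [pw_succ, List.length_append, ih]; ring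

theorem pw_reverse (x : List Bool) (n : ℕ) : (pw x n).reverse = pw x.reverse n := by
  induction n with
  | zero => rfl
  | succ n ih =>
    rw [pw_succ, List.reverse_append, ih, add_comm, pw_add]
    simp [pw]

/-- The word with blocks `y` at the places in `S` and `x` elsewhere. -/
def pat (x y : List Bool) (S : Finset ℕ) : ℕ → List Bool
  | 0 => []
  | m + 1 => pat x y S m ++ (if m ∈ S then y else x)

theorem pat_succ (x y : List Bool) (S : Finset ℕ) (m : ℕ) :
    pat x y S (m + 1) = pat x y S m ++ (if m ∈ S then y else x) := rfl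

theorem pat_length {x y : List Bool} (h : x.length = y.length) (S : Finset ℕ) (m : ℕ) :
    (pat x y S m).length = m * x.length := by
  induction m with
  | zero => simp [pat]
  | succ m ih =>
    rw [pat_succ, List.length_append, ih]
    split_ifs
    · rw [← h]; ring
    · ring

theorem pat_inj {x y : List Bool} (h : x.length = y.length) (hne : x ≠ y) {S S' : Finset ℕ}
    (m : ℕ) (he : pat x y S m = pat x y S' m) : ∀ i < m, i ∈ S ↔ i ∈ S' := by
  induction m with
  | zero => simp
  | succ m ih =>
    rw [pat_succ, pat_succ] at he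
    obtain ⟨h1, h2⟩ := List.append_inj he (by rw [pat_length h, pat_length h])
    intro i hi
    rcases Nat.lt_succ_iff_lt_or_eq.1 hi with h3 | rfl
    · exact ih h1 i h3
    · split_ifs at h2 with h4 h5 h5
      · exact iff_of_true h4 h5
      · exact absurd h2.symm hne
      · exact absurd h2 hne
      · exact iff_of_false h4 h5

theorem tele1 {a : ℕ} {ε : ℝ} {x y : List Bool} (h : Mt a ε x y) (hε : 0 ≤ ε)
    {g : List Bool → ℝ} (hg : J (2 * a + 1) g) (S : Finset ℕ) (p r : List Bool) (m : ℕ) :
    ∀ q, |(Ev (p ++ (pat x y S m ++ (q ++ (y ++ r)))) g -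
        Ev (p ++ (pat x y S m ++ (q ++ (x ++ r)))) g) -
      (Ev (p ++ (pw x m ++ (q ++ (y ++ r)))) g - Ev (p ++ (pw x m ++ (q ++ (x ++ r)))) g)| ≤
      4 * ε * m := by
  induction m with
  | zero => intro q; simp [pat, pw]
  | succ m ih =>
    intro q
    have h1 := ih (x ++ q)
    rw [pat_succ, pw_succ]
    push_cast
    simp only [List.append_assoc] at h1 ⊢
    split_ifs
    · have h2 := second h hg (p ++ pat x y S m) q r
      simp only [List.append_assoc] at h2
      rw [abs_le] at h1 h2 ⊢
      constructor <;> linarith [h1.1, h1.2, h2.1, h2.2]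
    · exact h1.trans (by linarith)

theorem tele2 {a : ℕ} {ε : ℝ} {x y : List Bool} (h : Mt a ε x y) (hε : 0 ≤ ε)
    {g : List Bool → ℝ} (hg : J (2 * a + 1) g) (S : Finset ℕ) (p : List Bool) (m : ℕ) :
    ∀ r, |Ev (p ++ (pat x y S m ++ r)) g - Ev (p ++ (pw x m ++ r)) g -
      ∑ i ∈ range m, (if i ∈ S then Ev (p ++ (pw x i ++ (y ++ (pw x (m - 1 - i) ++ r)))) g -
        Ev (p ++ (pw x m ++ r)) g else 0)| ≤ 4 * ε * m ^ 2 := by
  induction m with
  | zero => intro r; simp [pat, pw]
  | succ m ih =>
    intro r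
    have h1 := ih (x ++ r)
    have e : ∑ i ∈ range m, (if i ∈ S then
        Ev (p ++ (pw x i ++ (y ++ (pw x (m + 1 - 1 - i) ++ r)))) g -
          Ev (p ++ (pw x m ++ (x ++ r))) g else 0) = ∑ i ∈ range m, (if i ∈ S then
        Ev (p ++ (pw x i ++ (y ++ (pw x (m - 1 - i) ++ (x ++ r))))) g -
          Ev (p ++ (pw x m ++ (x ++ r))) g else 0) := by
      refine sum_congr rfl fun i hi => ?_
      have : m + 1 - 1 - i = m - 1 - i + 1 := by have := mem_range.1 hi; omega
      rw [this, pw_succ, List.append_assoc]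
    have e0 : pw x (m + 1 - 1 - m) = [] := by rw [show m + 1 - 1 - m = 0 by omega]; rfl
    have hm : (0 : ℝ) ≤ ε * m := by positivity
    rw [sum_range_succ, pat_succ, pw_succ, e0]
    simp only [List.append_assoc, List.nil_append]
    rw [e]
    push_cast
    split_ifs
    · have h2 := tele1 h hε hg S p r m []
      simp only [List.nil_append] at h2
      rw [abs_le] at h1 h2 ⊢
      constructor <;> nlinarith [h1.1, h1.2, h2.1, h2.2]
    · rw [add_zero]
      exact h1.trans (by nlinarith)

end Pool.Agent.Lib.MP_343fe0_pr.Ju
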