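import Mathlib
import Pool.Agent.Lib.MP_343fe0_pr.Ju.Basic

set_option autoImplicit false

/-! Finite differences, equal binomial moments, and binomial smoothing. -/

namespace Pool.Agent.Lib.MP_343fe0_pr.Ju

open Finset

/-- Iterated forward differences. -/
def dl : ℕ → (ℕ → ℝ) → ℕ → ℝ
  | 0, h => h
  | T + 1, h => dl T (fun i => h (i + 1) - h i)

theorem newton (T : ℕ) : ∀ (h : ℕ → ℝ) (m : ℕ) (D : ℝ), 0 ≤ D →
    (∀ j, j + T ≤ m → |dl T h j| ≤ D) → ∀ i, i ≤ m →
      |h i - ∑ r ∈ range T, (i.choose r : ℝ) * dl r h 0| ≤ i.choose T * D := by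
  induction T with
  | zero =>
    intro h m D _ H i hi
    simpa [dl] using H i hi
  | succ T ih =>
    intro h m D hD H i
    induction i with
    | zero =>
      intro _
      rw [sum_range_succ']
      simp [dl]
    | succ i ihi =>
      intro hi
      have h1 := ihi (by omega)
      have h2 := ih (fun i => h (i + 1) - h i) (m - 1) D hD (fun j hj => H j (by omega)) i
        (by omega)
      have e : ∑ r ∈ range (T + 1), ((i + 1).choose r : ℝ) * dl r h 0 =
          ∑ r ∈ range (T + 1), (i.choose r : ℝ) * dl r h 0 +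
            ∑ r ∈ range T, (i.choose r : ℝ) * dl r (fun i => h (i + 1) - h i) 0 := by
        rw [sum_range_succ', sum_range_succ' (fun r => (i.choose r : ℝ) * dl r h 0), add_right_comm,
          ← sum_add_distrib]
        congr 1
        · refine sum_congr rfl fun r _ => ?_
          rw [Nat.choose_succ_succ']
          push_cast
          simp only [dl]
          ring
        · simp
      rw [e, Nat.choose_succ_succ']
      push_cast
      rw [abs_le] at h1 h2 ⊢
      constructor <;> linarith [h1.1, h1.2, h2.1, h2.2]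

theorem moments {T m : ℕ} (hm : 1 ≤ m) (h : (m ^ T + 1) ^ T < 2 ^ m) :
    ∃ A B : Finset ℕ, A ⊆ range m ∧ B ⊆ range m ∧ A ≠ B ∧
      ∀ r < T, ∑ i ∈ A, i.choose r = ∑ i ∈ B, i.choose r := by
  classical
  obtain ⟨A, hA, B, hB, hne, he⟩ := exists_ne_map_eq_of_card_lt_of_maps_to
    (s := (range m).powerset) (t := Fintype.piFinset fun _ : Fin T => range (m ^ T + 1))
    (f := fun A r => ∑ i ∈ A, i.choose r) (by simpa using h) (by
      intro A hA
      simp only [coe_powerset, Set.mem_preimage, Set.mem_powerset_iff, coe_subset] at hA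
      simp only [mem_coe, Fintype.mem_piFinset, mem_range]
      intro r
      have h1 : ∑ i ∈ A, i.choose r ≤ A.card • m ^ (r : ℕ) := sum_le_card_nsmul _ _ _ fun i hi =>
        (Nat.choose_le_pow _ _).trans (Nat.pow_le_pow_left (mem_range.1 (hA hi)).le _)
      have h2 : A.card ≤ m := by simpa using card_le_card hA
      have h3 : m * m ^ (r : ℕ) ≤ m ^ T := by
        rw [← pow_succ']
        exact Nat.pow_le_pow_right hm r.2
      have h4 := Nat.mul_le_mul_right (m ^ (r : ℕ)) h2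
      rw [smul_eq_mul] at h1
      omega)
  exact ⟨A, B, mem_powerset.1 hA, mem_powerset.1 hB, hne, fun r hr => congrFun he ⟨r, hr⟩⟩

theorem moments_bound {T m : ℕ} {A B : Finset ℕ} (hA : A ⊆ range m) (hB : B ⊆ range m)
    (he : ∀ r < T, ∑ i ∈ A, i.choose r = ∑ i ∈ B, i.choose r) {h h' : ℕ → ℝ} {D τ : ℝ}
    (hD : 0 ≤ D) (hτ : 0 ≤ τ) (H : ∀ j, j + T ≤ m - 1 → |dl T h' j| ≤ D)
    (H' : ∀ i < m, |h i - h' i| ≤ τ) :
    |∑ i ∈ A, h i - ∑ i ∈ B, h i| ≤ 2 * m * (τ + m.choose T * D) := by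
  let p : ℕ → ℝ := fun i => ∑ r ∈ range T, (i.choose r : ℝ) * dl r h' 0
  have hp : ∑ i ∈ A, p i = ∑ i ∈ B, p i := by
    simp only [p]
    rw [sum_comm, sum_comm (s := B)]
    refine sum_congr rfl fun r hr => ?_
    rw [← sum_mul, ← sum_mul, ← Nat.cast_sum, ← Nat.cast_sum, he r (mem_range.1 hr)]
  have key : ∀ C : Finset ℕ, C ⊆ range m →
      |∑ i ∈ C, h i - ∑ i ∈ C, p i| ≤ m * (τ + m.choose T * D) := by
    intro C hC
    rw [← sum_sub_distrib]
    refine (abs_sum_le_sum_abs _ _).trans ((sum_le_card_nsmul _ _ (τ + m.choose T * D) ?_).trans ?_)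
    · intro i hi
      have hi' := mem_range.1 (hC hi)
      have h1 := newton T h' (m - 1) D hD H i (by omega)
      have h2 := H' i hi'
      have h3 : (i.choose T : ℝ) * D ≤ m.choose T * D :=
        mul_le_mul_of_nonneg_right (by exact_mod_cast Nat.choose_le_choose T hi'.le) hD
      have h4 := abs_sub_le (h i) (h' i) (p i)
      linarith
    · rw [nsmul_eq_mul]
      have h2 : C.card ≤ m := by simpa using card_le_card hC
      exact mul_le_mul_of_nonneg_right (by exact_mod_cast h2) (by positivity)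
  have h1 := abs_le.1 (key A hA)
  have h2 := abs_le.1 (key B hB)
  rw [abs_le]
  constructor <;> linarith [h1.1, h1.2, h2.1, h2.2]

/-- Binomial smoothing. -/
noncomputable def M (n : ℕ) (ψ : ℕ → ℝ) (a : ℕ) : ℝ := Ev (zw n) (fun u => ψ (a + u.length))

theorem M_add (n k : ℕ) (ψ : ℕ → ℝ) (a : ℕ) : M (n + k) ψ a = M n (M k ψ) a := by
  simp only [M, zw_add, Ev_append, List.length_append, add_assoc]

theorem M_succ (n : ℕ) (ψ : ℕ → ℝ) (a : ℕ) : M (n + 1) ψ a = (M n ψ a + M n ψ (a + 1)) / 2 := by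
  simp only [M, zw_succ, Ev_cons, List.length_cons, add_assoc, add_comm 1]

theorem M_abs (n : ℕ) {ψ : ℕ → ℝ} {B : ℝ} (h : ∀ a, |ψ a| ≤ B) (a : ℕ) : |M n ψ a| ≤ B :=
  Ev_abs _ fun _ => h _

theorem M_dist (n : ℕ) {ψ ψ' : ℕ → ℝ} {B : ℝ} (h : ∀ a, |ψ a - ψ' a| ≤ B) (a : ℕ) :
    |M n ψ a - M n ψ' a| ≤ B :=
  Ev_dist _ fun _ => h _

theorem M_sub (n : ℕ) (ψ ψ' : ℕ → ℝ) (a : ℕ) :
    M n (fun b => ψ b - ψ' b) a = M n ψ a - M n ψ' a := Ev_sub _ _ _

/-- The score functional. -/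
noncomputable def Sc (n : ℕ) (ψ : ℕ → ℝ) (a : ℕ) : ℝ :=
  Ev (zw n) (fun u => (2 * (u.length : ℝ) - n) * ψ (a + u.length))

theorem Sc_succ (n : ℕ) (ψ : ℕ → ℝ) (a : ℕ) : Sc (n + 1) ψ a =
    (Sc n ψ a + Sc n ψ (a + 1)) / 2 + (M n ψ (a + 1) - M n ψ a) / 2 := by
  have e1 : (fun u : List Bool => (2 * (u.length : ℝ) - (n + 1 : ℕ)) * ψ (a + u.length)) =
      fun u => (2 * (u.length : ℝ) - n) * ψ (a + u.length) - ψ (a + u.length) := by
    funext u
    push_cast
    ring
  have e2 : (fun u : List Bool => (2 * ((false :: u).length : ℝ) - (n + 1 : ℕ)) *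
      ψ (a + (false :: u).length)) =
      fun u => (2 * (u.length : ℝ) - n) * ψ (a + 1 + u.length) + ψ (a + 1 + u.length) := by
    funext u
    rw [List.length_cons, show a + (u.length + 1) = a + 1 + u.length by ring]
    push_cast
    ring
  rw [Sc, zw_succ, Ev_cons, e2, e1, Ev_add, Ev_sub, Sc, Sc, M, M]
  ring

theorem Sc_eq (n : ℕ) (ψ : ℕ → ℝ) : ∀ a, Sc (n + 1) ψ a =
    (n + 1) / 2 * (M n ψ (a + 1) - M n ψ a) := by
  induction n with
  | zero =>
    intro a
    rw [Sc_succ]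
    simp [Sc, zw, Ev_nil]
    ring
  | succ n ih =>
    intro a
    rw [Sc_succ, ih, ih, M_succ n ψ (a + 1), M_succ n ψ a]
    push_cast
    ring

theorem Ev_var (x : List Bool) (c : ℝ) :
    Ev x (fun u => (2 * (u.length : ℝ) - c) ^ 2) = x.length + (x.length - c) ^ 2 := by
  induction x generalizing c with
  | nil => simp [Ev_nil]
  | cons b x ih =>
    have e : (fun u : List Bool => (2 * ((b :: u).length : ℝ) - c) ^ 2) =
        fun u => (2 * (u.length : ℝ) - (c - 2)) ^ 2 := by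
      funext u
      rw [List.length_cons]
      push_cast
      ring
    rw [Ev_cons, e, ih, ih, List.length_cons]
    push_cast
    ring

theorem M_step (n : ℕ) {ψ : ℕ → ℝ} {B t : ℝ} (h : ∀ a, |ψ a| ≤ B) (ht : 0 < t)
    (htn : t ^ 2 ≤ n + 1) (a : ℕ) : |M (n + 1) ψ a - M n ψ a| ≤ B / t := by
  have hB : 0 ≤ B := (abs_nonneg _).trans (h 0)
  have hn : (0 : ℝ) < n + 1 := by positivity
  set s := √((n : ℝ) + 1) with hs
  have hs0 : 0 < s := Real.sqrt_pos.2 hn
  have hs2 : s ^ 2 = n + 1 := Real.sq_sqrt hn.le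
  have h1 : |Sc (n + 1) ψ a| ≤ Ev (zw (n + 1)) (fun u =>
      B / (2 * s) * ((2 * (u.length : ℝ) - (n + 1 : ℕ)) ^ 2 + s ^ 2)) := by
    refine Ev_abs_le _ fun u => ?_
    set w := 2 * (u.length : ℝ) - (n + 1 : ℕ)
    have h2 : |w| ≤ (w ^ 2 + s ^ 2) / (2 * s) := by
      rw [le_div_iff₀ (by positivity), ← sq_abs w]
      nlinarith [sq_nonneg (|w| - s)]
    rw [abs_mul]
    calc _ ≤ (w ^ 2 + s ^ 2) / (2 * s) * B :=
          mul_le_mul h2 (h _) (abs_nonneg _) (by positivity)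
      _ = _ := by ring
  rw [Ev_mul, Ev_add, Ev_var, Ev_const, zw_length, Sc_eq, sub_self] at h1
  push_cast at h1
  have e : M (n + 1) ψ a - M n ψ a = (n + 1) / 2 * (M n ψ (a + 1) - M n ψ a) / s ^ 2 := by
    rw [M_succ, hs2]
    field_simp
    ring
  have hts : t ≤ s := by
    rw [← hs2] at htn
    exact (pow_le_pow_iff_left₀ ht.le hs0.le two_ne_zero).1 htn
  rw [e, abs_div, abs_of_pos (pow_pos hs0 2), div_le_iff₀ (pow_pos hs0 2)]
  refine h1.trans ?_
  rw [← hs2]
  calc _ = B / s * s ^ 2 := by field_simp; ring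
    _ ≤ _ := by gcongr

theorem M_steps (n : ℕ) {ψ : ℕ → ℝ} {B t : ℝ} (h : ∀ a, |ψ a| ≤ B) (ht : 0 < t)
    (htn : t ^ 2 ≤ n + 1) (a R : ℕ) : |M (n + R) ψ a - M n ψ a| ≤ R * (B / t) := by
  induction R with
  | zero => simp
  | succ R ih =>
    have h1 := M_step (n + R) h ht (htn.trans (by push_cast; linarith [R.cast_nonneg (α := ℝ)])) a
    have h2 := abs_sub_le (M (n + R + 1) ψ a) (M (n + R) ψ a) (M n ψ a)
    rw [← add_assoc]
    push_cast
    linarith

/-- Binomial smoothing in two variables. -/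
noncomputable def M2 (n k : ℕ) (φ : ℕ → ℕ → ℝ) (a b : ℕ) : ℝ := M n (fun a' => M k (φ a') b) a

theorem M2_add (n k n' k' : ℕ) (φ : ℕ → ℕ → ℝ) (a b : ℕ) :
    M2 (n + n') (k + k') φ a b = M2 n k (M2 n' k' φ) a b := by
  simp only [M2, M_add]
  congr 1
  funext a'
  simp only [M]
  rw [Ev_comm]
  rfl

theorem M2_sub (n k : ℕ) (φ φ' : ℕ → ℕ → ℝ) (a b : ℕ) :
    M2 n k (fun a b => φ a b - φ' a b) a b = M2 n k φ a b - M2 n k φ' a b := by
  simp only [M2, M_sub]

theorem M2_abs (n k : ℕ) {φ : ℕ → ℕ → ℝ} {B : ℝ} (h : ∀ a b, |φ a b| ≤ B) (a b : ℕ) :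
    |M2 n k φ a b| ≤ B := M_abs n (fun a' => M_abs k (h a') b) a

theorem smooth {g R : ℕ} {t : ℝ} (ht : 0 < t) (htg : t ^ 2 ≤ g + 1) (T : ℕ) :
    ∀ (φ : ℕ → ℕ → ℝ) (B : ℝ) (G m : ℕ), (∀ a b, |φ a b| ≤ B) → T * g ≤ G → ∀ j, j + T ≤ m →
      |dl T (fun i => M2 (G + i * R) (G + (m - i) * R) φ 0 0) j| ≤ B * (2 * R / t) ^ T := by
  have hcongr : ∀ (T : ℕ) (h h' : ℕ → ℝ) (j : ℕ), (∀ i, i ≤ j + T → h i = h' i) →
      dl T h j = dl T h' j := by
    intro T
    induction T with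
    | zero => exact fun h h' j H => H j le_rfl
    | succ T ih =>
      intro h h' j H
      exact ih _ _ j fun i hi => by rw [H i (by omega), H (i + 1) (by omega)]
  induction T with
  | zero =>
    intro φ B G m h _ j _
    simpa [dl] using M2_abs _ _ h 0 0
  | succ T ih =>
    intro φ B G m h hG j hj
    obtain ⟨G, rfl⟩ : ∃ G', G = G' + g := ⟨G - g, by rw [add_mul] at hG; omega⟩
    obtain ⟨m, rfl⟩ : ∃ m', m = m' + 1 := ⟨m - 1, by omega⟩
    have h1 : ∀ a b, |M2 (g + R) g φ a b - M2 g (g + R) φ a b| ≤ B * (2 * R / t) := by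
      intro a b
      have h2 : |M2 (g + R) g φ a b - M2 g g φ a b| ≤ R * (B / t) :=
        M_steps g (fun a' => M_abs g (h a') b) ht htg a R
      have h3 : |M2 g (g + R) φ a b - M2 g g φ a b| ≤ R * (B / t) :=
        M_dist g (fun a' => M_steps g (h a') ht htg b R) a
      have e : B * (2 * R / t) = R * (B / t) + R * (B / t) := by ring
      rw [abs_le] at h2 h3 ⊢
      constructor <;> linarith [h2.1, h2.2, h3.1, h3.2]
    have h2 := ih _ _ G m h1 (by rw [add_mul] at hG; omega) j (by omega)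
    rw [pow_succ', ← mul_assoc]
    refine le_of_eq_of_le ?_ h2
    congr 1
    refine hcongr T _ _ j fun i hi => ?_
    obtain ⟨c, rfl⟩ : ∃ c, m = i + c := ⟨m - i, by omega⟩
    beta_reduce
    rw [M2_sub, ← M2_add, ← M2_add, show i + c + 1 - (i + 1) = c by omega,
      show i + c + 1 - i = c + 1 by omega, show i + c - i = c by omega]
    congr 2 <;> ring

end Pool.Agent.Lib.MP_343fe0_pr.Ju
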