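import Mathlib
import Pool.Agent.Lib.MP_343fe0_pr.Ju.Junta
import Pool.Agent.Lib.MP_343fe0_pr.Ju.Smooth

set_option autoImplicit false

/-! First-order terms: unobserved zones are replaced by zeros, then smoothing applies. -/

namespace Pool.Agent.Lib.MP_343fe0_pr.Ju

open Finset

/-- `g` reads the length and the entries at the places in `P`. -/
def Dep (P : Finset ℕ) (g : List Bool → ℝ) : Prop :=
  ∀ u v : List Bool, u.length = v.length → (∀ p ∈ P, u[p]? = v[p]?) → g u = g v

/-- `g` is bounded by one and reads the length and `k` fixed entries. -/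
def J1 (k : ℕ) (g : List Bool → ℝ) : Prop := (∀ u, |g u| ≤ 1) ∧ ∃ P, P.card ≤ k ∧ Dep P g

/-- The part of `g` on words of length `l`. -/
noncomputable def cut (g : List Bool → ℝ) (l : ℕ) (u : List Bool) : ℝ :=
  if u.length = l then g u else 0

theorem J.cut {k : ℕ} {g : List Bool → ℝ} (h : J k g) (l : ℕ) : J1 k (cut g l) := by
  obtain ⟨P, hP, H⟩ := h.2 l
  refine ⟨fun u => ?_, P, hP, fun u v huv hp => ?_⟩
  · unfold Ju.cut
    split_ifs
    · exact h.1 u
    · simp
  · unfold Ju.cut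
    rw [← huv]
    split_ifs with hl
    · exact H u v hl (huv ▸ hl) hp
    · rfl

theorem J.rev {k : ℕ} {g : List Bool → ℝ} (h : J k g) : J k (fun u => g u.reverse) := by
  refine ⟨fun u => h.1 _, fun l => ?_⟩
  obtain ⟨P, hP, H⟩ := h.2 l
  refine ⟨P.image (fun p => l - 1 - p), card_image_le.trans hP, fun u v hu hv huv =>
    H _ _ (by simpa using hu) (by simpa using hv) fun p hp => ?_⟩
  by_cases hl : p < l
  · rw [List.getElem?_reverse (hu ▸ hl), List.getElem?_reverse (hv ▸ hl), hu, hv]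
    exact huv _ (mem_image_of_mem _ hp)
  · rw [List.getElem?_eq_none (by simp; omega), List.getElem?_eq_none (by simp; omega)]

theorem Ev_cut (x : List Bool) (g : List Bool → ℝ) :
    Ev x g = ∑ l ∈ range (x.length + 1), Ev x (cut g l) := by
  rw [← Ev_sum]
  refine Ev_congr x fun u hu => ?_
  simp only [cut]
  rw [sum_ite_eq, if_pos (mem_range.2 (by omega))]

theorem zone {P : Finset ℕ} {g : List Bool → ℝ} (hb : ∀ u, |g u| ≤ 1) (hd : Dep P g)
    {lo hi : ℕ} (hP : ∀ p ∈ P, p < lo ∨ hi ≤ p) (A Z B : List Bool) :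
    |Ev (A ++ (Z ++ B)) g - Ev (A ++ (zw Z.length ++ B)) g| ≤
      2 * (Ev A (fun u => if u.length < lo then 1 else 0) +
        Ev (A ++ Z) (fun u => if hi < u.length then 1 else 0)) := by
  have e1 : ∀ u : List Bool, Ev (zw Z.length) (fun v => Ev B (fun w => g (u ++ (v ++ w)))) =
      Ev Z (fun v => Ev B (fun w => g (u ++ (zw v.length ++ w)))) := by
    intro u
    rw [Ev_zw]
    exact Ev_len _ _ (zw_length _) fun l => Ev B (fun w => g (u ++ (zw l ++ w)))
  simp only [Ev_append, e1]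
  rw [← Ev_sub, ← Ev_add, ← Ev_mul]
  refine Ev_abs_le A fun u => ?_
  rw [← Ev_sub, ← Ev_const Z (if u.length < lo then 1 else 0), ← Ev_add, ← Ev_mul]
  refine Ev_abs_le Z fun v => Ev_dist B fun w => ?_
  have h1 := abs_le.1 (hb (u ++ (v ++ w)))
  have h2 := abs_le.1 (hb (u ++ (zw v.length ++ w)))
  rw [List.length_append]
  split_ifs with h3 h4 h4
  · rw [abs_le]; constructor <;> linarith [h1.1, h1.2, h2.1, h2.2]
  · rw [abs_le]; constructor <;> linarith [h1.1, h1.2, h2.1, h2.2]
  · rw [abs_le]; constructor <;> linarith [h1.1, h1.2, h2.1, h2.2]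
  · rw [hd (u ++ (v ++ w)) (u ++ (zw v.length ++ w)) (by simp [zw_length]) fun p hp =>
      get_right u p fun h5 => get_left w (zw_length _).symm _ fun h6 => by
        have := hP p hp
        omega]
    simp

theorem free_zone {P : Finset ℕ} {k : ℕ} (hP : P.card ≤ k) (c : ℕ) :
    ∃ r, r ≤ k ∧ ∀ p ∈ P, p < r * c ∨ (r + 1) * c ≤ p := by
  obtain ⟨r, hr, hr'⟩ := exists_mem_notMem_of_card_lt_card (s := P.image (· / c))
    (t := range (k + 1)) (by rw [card_range]; exact Nat.lt_succ_of_le (card_image_le.trans hP))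
  refine ⟨r, Nat.lt_succ_iff.1 (mem_range.1 hr), fun p hp => ?_⟩
  by_contra hcon
  rw [not_or, not_lt, not_le] at hcon
  exact hr' (mem_image.2 ⟨p, hp, Nat.div_eq_of_lt_le hcon.1 hcon.2⟩)

theorem left_zone (x : List Bool) {k W : ℕ} (hW : 0 < W * x.length) {g : List Bool → ℝ}
    (hg : J1 k g) : ∃ A C : List Bool, ∀ i, i ≤ W → ∀ B,
      |Ev (pw x (4 * (k + 1) * W + i) ++ B) g -
        Ev (A ++ (zw (W * x.length + i * x.length) ++ (C ++ B))) g| ≤
        4 * Real.exp (-((W * x.length : ℕ) / (8 * (k + 1) : ℝ))) := by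
  obtain ⟨hb, P, hP, hd⟩ := hg
  obtain ⟨r, hr, H⟩ := free_zone hP (2 * (W * x.length))
  obtain ⟨c, rfl⟩ : ∃ c, k = r + c := ⟨k - r, by omega⟩
  refine ⟨pw x (4 * r * W + W), pw x (4 * c * W + 2 * W), fun i hi B => ?_⟩
  have h1 := zone hb hd H (pw x (4 * r * W + W)) (pw x (W + i)) (pw x (4 * c * W + 2 * W) ++ B)
  have e : pw x (4 * (r + c + 1) * W + i) ++ B =
      pw x (4 * r * W + W) ++ (pw x (W + i) ++ (pw x (4 * c * W + 2 * W) ++ B)) := by
    rw [← List.append_assoc, ← List.append_assoc, ← pw_add, ← pw_add]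
    congr 2
    ring
  rw [pw_length, add_mul] at h1
  rw [e]
  refine h1.trans ?_
  have hi' : i * x.length ≤ W * x.length := Nat.mul_le_mul_right _ hi
  have l1 : (pw x (4 * r * W + W)).length = (4 * r + 1) * (W * x.length) := by
    rw [pw_length]; ring
  have l2 : (pw x (4 * r * W + W) ++ pw x (W + i)).length =
      (4 * r + 2) * (W * x.length) + i * x.length := by
    rw [List.length_append, l1, pw_length]; ring
  generalize W * x.length = G at *
  generalize i * x.length = I at *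
  have hG : (0 : ℝ) < G := by exact_mod_cast hW
  have hI : (I : ℝ) ≤ G := by exact_mod_cast hi'
  have hI0 : (0 : ℝ) ≤ I := I.cast_nonneg
  have hrG : (0 : ℝ) ≤ r * G := by positivity
  have hcG : (0 : ℝ) ≤ c * G := by positivity
  have e2 : (G : ℝ) / (8 * ((r + c : ℕ) + 1 : ℝ)) =
      2 * ((G : ℝ) / 2) ^ 2 / (4 * (r + c + 1) * G) := by
    push_cast
    field_simp
    ring
  have h2 := Ev_tail (pw x (4 * r * W + W)) (σ := -1) (δ := G / 2) (L := 4 * (r + c + 1) * G)
    (by norm_num) (by positivity) (by positivity) (by rw [l1]; push_cast; nlinarith)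
    (fun u => u.length < r * (2 * G)) fun u hu => by
      have : (u.length : ℝ) < r * (2 * G) := by exact_mod_cast hu
      rw [l1]
      push_cast
      nlinarith
  have h3 := Ev_tail (pw x (4 * r * W + W) ++ pw x (W + i)) (σ := 1) (δ := G / 2)
    (L := 4 * (r + c + 1) * G)
    (by norm_num) (by positivity) (by positivity) (by rw [l2]; push_cast; nlinarith)
    (fun u => (r + 1) * (2 * G) < u.length) fun u hu => by
      have : ((r : ℝ) + 1) * (2 * G) < u.length := by exact_mod_cast hu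
      rw [l2]
      push_cast
      nlinarith
  rw [e2]
  linarith

theorem right_zone (x : List Bool) {k W : ℕ} (hW : 0 < W * x.length) {g : List Bool → ℝ}
    (hg : J1 k (fun u => g u.reverse)) : ∃ A C : List Bool, ∀ i, i ≤ W → ∀ B,
      |Ev (B ++ pw x (4 * (k + 1) * W + i)) g -
        Ev (B ++ (C ++ (zw (W * x.length + i * x.length) ++ A))) g| ≤
        4 * Real.exp (-((W * x.length : ℕ) / (8 * (k + 1) : ℝ))) := by
  obtain ⟨A, C, H⟩ := left_zone x.reverse (W := W) (by simpa using hW) hg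
  refine ⟨A.reverse, C.reverse, fun i hi B => ?_⟩
  have h1 := H i hi B.reverse
  rw [← Ev_reverse, ← Ev_reverse] at h1
  simpa [pw_reverse, zw_reverse] using h1

theorem two_zero (A D A' : List Bool) (n1 n2 : ℕ) (g : List Bool → ℝ) :
    Ev (A ++ (zw n1 ++ (D ++ (zw n2 ++ A')))) g = M2 n1 n2 (fun a b => Ev A (fun u => Ev D
      (fun c => Ev A' (fun w => g (u ++ (zw a ++ (c ++ (zw b ++ w)))))))) 0 0 := by
  simp only [Ev_append, M2, M, zero_add]
  rw [Ev_comm, Ev_zw]
  congr 1
  funext v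
  rw [← Ev_comm A (zw n2)]
  congr 1
  funext u
  rw [← Ev_comm D (zw n2)]
  congr 1
  funext c
  rw [Ev_zw]

theorem first {x y : List Bool} (hxy : x.length = y.length) {k W m T g0 : ℕ} {t : ℝ}
    (hW : 0 < W * x.length) (hm : m ≤ W) (ht : 0 < t) (htg : t ^ 2 ≤ g0 + 1)
    (hG : T * g0 ≤ W * x.length) {S S' : Finset ℕ} (hS : S ⊆ range m) (hS' : S' ⊆ range m)
    (he : ∀ r < T, ∑ i ∈ S, i.choose r = ∑ i ∈ S', i.choose r) {g : List Bool → ℝ} (hg : J k g) :
    |∑ i ∈ S, Ev (pw x (4 * (k + 1) * W) ++ (pw x i ++ (y ++ (pw x (m - 1 - i) ++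
        pw x (4 * (k + 1) * W))))) g -
      ∑ i ∈ S', Ev (pw x (4 * (k + 1) * W) ++ (pw x i ++ (y ++ (pw x (m - 1 - i) ++
        pw x (4 * (k + 1) * W))))) g| ≤
      (((8 * (k + 1) * W + m) * x.length + 1 : ℕ) : ℝ) *
        (2 * m * (8 * Real.exp (-((W * x.length : ℕ) / (8 * (k + 1) : ℝ))) +
          m.choose T * (2 * x.length / t) ^ T)) := by
  have hl : ∀ C : Finset ℕ, C ⊆ range m → ∑ i ∈ C, Ev (pw x (4 * (k + 1) * W) ++ (pw x i ++
      (y ++ (pw x (m - 1 - i) ++ pw x (4 * (k + 1) * W))))) g =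
      ∑ l ∈ range ((8 * (k + 1) * W + m) * x.length + 1), ∑ i ∈ C,
        Ev (pw x (4 * (k + 1) * W) ++ (pw x i ++ (y ++ (pw x (m - 1 - i) ++
          pw x (4 * (k + 1) * W))))) (cut g l) := by
    intro C hC
    rw [sum_comm]
    refine sum_congr rfl fun i hi => ?_
    obtain ⟨c, rfl⟩ : ∃ c, m = i + 1 + c := ⟨m - (i + 1), by have := mem_range.1 (hC hi); omega⟩
    rw [Ev_cut]
    congr 3
    simp only [List.length_append, pw_length, ← hxy, show i + 1 + c - 1 - i = c by omega]
    ring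
  rw [hl S hS, hl S' hS', ← sum_sub_distrib]
  refine (abs_sum_le_sum_abs _ _).trans ((sum_le_card_nsmul _ _ _ fun l _ => ?_).trans_eq
    (by rw [card_range, nsmul_eq_mul]))
  have hr : J1 k (fun u => cut g l u.reverse) := by
    have := hg.rev.cut l
    refine (congrArg (J1 k) ?_).mp this
    funext u
    simp [cut]
  obtain ⟨A, C, H⟩ := left_zone x hW (hg.cut l)
  obtain ⟨A', C', H'⟩ := right_zone x hW hr
  have hb := (hg.cut l).1
  have h1 := smooth (R := x.length) ht htg T (fun a b => Ev A (fun u => Ev (C ++ (y ++ C'))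
    (fun c => Ev A' (fun w => cut g l (u ++ (zw a ++ (c ++ (zw b ++ w)))))))) 1 (W * x.length)
    (m - 1) (fun a b => Ev_abs _ fun u => Ev_abs _ fun c => Ev_abs _ fun w => hb _) hG
  rw [one_mul] at h1
  refine moments_bound hS hS' he (by positivity) (by positivity) h1 fun i hi => ?_
  rw [← two_zero]
  have h2 := H i (by omega) (y ++ (pw x (m - 1 - i) ++ pw x (4 * (k + 1) * W)))
  have h3 := H' (m - 1 - i) (by omega) (A ++ (zw (W * x.length + i * x.length) ++ (C ++ y)))
  rw [add_comm (4 * (k + 1) * W), pw_add] at h3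
  rw [pw_add] at h2
  simp only [List.append_assoc] at h2 h3 ⊢
  exact (abs_sub_le _ _ _).trans ((add_le_add h2 h3).trans_eq (by ring))

end Pool.Agent.Lib.MP_343fe0_pr.Ju
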