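import Mathlib
import Pool.Agent.Lib.MP_343fe0_pr.Ju.First

set_option autoImplicit false

/-! The recursion: order `a` at length `R` gives order `2 a + 1` at length about `R ^ 2`. -/

namespace Pool.Agent.Lib.MP_343fe0_pr.Ju

open Finset

theorem choose_small {T μ R : ℕ} (hμ : 0 < μ) (hR : 0 < R) :
    ((T * μ).choose T : ℝ) * (2 * R / (48 * μ * R)) ^ T ≤ Real.exp (-(2 * T)) := by
  have hμ' : (0 : ℝ) < μ := by exact_mod_cast hμ
  have hR' : (0 : ℝ) < R := by exact_mod_cast hR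
  have h1 : ((T * μ).choose T : ℝ) ≤ ((T * μ : ℕ) : ℝ) ^ T / T.factorial :=
    Nat.choose_le_pow_div T (T * μ)
  have h2 := Real.pow_div_factorial_le_exp (T : ℝ) T.cast_nonneg T
  have h3 : Real.exp 3 ≤ 24 := by
    have := Real.exp_one_lt_d9
    have h0 := Real.exp_pos 1
    rw [show (3 : ℝ) = (3 : ℕ) * 1 by norm_num, Real.exp_nat_mul]
    calc Real.exp 1 ^ 3 ≤ 2.7182818286 ^ 3 := by gcongr
      _ ≤ 24 := by norm_num
  have h4 : Real.exp (3 * T) ≤ 24 ^ T := by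
    rw [mul_comm, Real.exp_nat_mul]
    gcongr
  have e1 : (2 * R / (48 * μ * R) : ℝ) = 1 / (24 * μ) := by field_simp; ring
  have e2 : ((T * μ : ℕ) : ℝ) ^ T / T.factorial * (1 / (24 * μ)) ^ T =
      (T : ℝ) ^ T / T.factorial / 24 ^ T := by
    push_cast
    rw [mul_pow, one_div_pow, mul_pow]
    field_simp
  rw [e1]
  calc _ ≤ ((T * μ : ℕ) : ℝ) ^ T / T.factorial * (1 / (24 * μ)) ^ T := by gcongr
    _ = _ := e2
    _ ≤ Real.exp T / Real.exp (3 * T) := by gcongr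
    _ = _ := by rw [← Real.exp_sub]; ring_nf

theorem level {a K T μ : ℕ} {ε : ℝ} {x y : List Bool} (h : Mt a ε x y) (hε : 0 ≤ ε) (hne : x ≠ y)
    (hK : 2 * a + 2 ≤ K) (hKμ : K ≤ μ) (hT : 1 ≤ T)
    (hp : ((T * μ) ^ T + 1) ^ T < 2 ^ (T * μ)) :
    ∃ X Y : List Bool, X ≠ Y ∧ X.length ≤ 20736 * K * T * μ ^ 2 * x.length ^ 2 ∧
      Mt (2 * a + 1) (8 * ε * ((T * μ : ℕ) : ℝ) ^ 2 +
        ((X.length + 1 : ℕ) : ℝ) * (18 * (T * μ : ℕ) * Real.exp (-(2 * T)))) X Y := by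
  obtain ⟨k, rfl⟩ : ∃ k, K = k + 1 := ⟨K - 1, by omega⟩
  have hμ : 0 < μ := by omega
  have hR : 0 < x.length := by
    rw [Nat.pos_iff_ne_zero]
    intro h0
    have h1 := h.1
    rw [h0, eq_comm, List.length_eq_zero_iff] at h1
    exact hne ((List.length_eq_zero_iff.1 h0).trans h1.symm)
  obtain ⟨S, S', hS, hS', hSS, he⟩ := moments (Nat.mul_pos hT hμ) hp
  obtain ⟨W, hW⟩ : ∃ W, W = 2304 * T * μ ^ 2 * x.length := ⟨_, rfl⟩
  have hmW : T * μ ≤ W := by
    rw [hW]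
    calc T * μ = 1 * T * μ ^ 1 * 1 := by ring
      _ ≤ _ := by gcongr <;> omega
  have hWR : 0 < W * x.length := Nat.mul_pos (lt_of_lt_of_le (Nat.mul_pos hT hμ) hmW) hR
  have hlen : ∀ C : Finset ℕ, (pw x (4 * (k + 1) * W) ++ (pat x y C (T * μ) ++
      pw x (4 * (k + 1) * W))).length = (8 * (k + 1) * W + T * μ) * x.length := by
    intro C
    simp only [List.length_append, pw_length, pat_length h.1]
    ring
  refine ⟨pw x (4 * (k + 1) * W) ++ (pat x y S (T * μ) ++ pw x (4 * (k + 1) * W)),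
    pw x (4 * (k + 1) * W) ++ (pat x y S' (T * μ) ++ pw x (4 * (k + 1) * W)), fun h0 => hSS ?_,
    ?_, by rw [hlen, hlen], fun g hg => ?_⟩
  · have h1 := pat_inj h.1 hne _ (List.append_cancel_right (List.append_cancel_left h0))
    ext i
    exact ⟨fun hi => (h1 i (mem_range.1 (hS hi))).1 hi,
      fun hi => (h1 i (mem_range.1 (hS' hi))).2 hi⟩
  · rw [hlen]
    calc _ ≤ (8 * (k + 1) * W + (k + 1) * W) * x.length := by
          exact Nat.mul_le_mul_right _ (Nat.add_le_add_left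
            (hmW.trans (Nat.le_mul_of_pos_left _ (Nat.succ_pos k))) _)
      _ = _ := by rw [hW]; ring
  have hμ' : (0 : ℝ) < μ := by exact_mod_cast hμ
  have hR' : (0 : ℝ) < x.length := by exact_mod_cast hR
  have h1 := first h.1 (k := k) (g0 := 2304 * μ ^ 2 * x.length ^ 2) (t := 48 * μ * x.length) hWR
    hmW (by positivity) (by push_cast; nlinarith) (by rw [hW]; exact le_of_eq (by ring)) hS hS' he
    (hg.mono (by omega))
  have h2 := tele2 h hε hg S (pw x (4 * (k + 1) * W)) (T * μ) (pw x (4 * (k + 1) * W))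
  have h3 := tele2 h hε hg S' (pw x (4 * (k + 1) * W)) (T * μ) (pw x (4 * (k + 1) * W))
  have hc : S.card = S'.card := by simpa using he 0 hT
  rw [sum_ite_mem, inter_eq_right.2 hS, sum_sub_distrib, sum_const, nsmul_eq_mul, hc] at h2
  rw [sum_ite_mem, inter_eq_right.2 hS', sum_sub_distrib, sum_const, nsmul_eq_mul] at h3
  have h4 := choose_small (T := T) hμ hR
  have h5 : Real.exp (-((W * x.length : ℕ) / (8 * (k + 1) : ℝ))) ≤ Real.exp (-(2 * T)) := by
    rw [Real.exp_le_exp, neg_le_neg_iff, le_div_iff₀ (by positivity)]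
    have : 2 * T * (8 * (k + 1)) ≤ W * x.length := by
      rw [hW]
      calc 2 * T * (8 * (k + 1)) = 16 * T * (k + 1) ^ 1 * 1 * 1 := by ring
        _ ≤ 2304 * T * μ ^ 1 * 1 * 1 := by gcongr; omega
        _ ≤ _ := by gcongr <;> omega
    exact_mod_cast this
  have h6 : (((8 * (k + 1) * W + T * μ) * x.length + 1 : ℕ) : ℝ) *
      (2 * (T * μ : ℕ) * (8 * Real.exp (-((W * x.length : ℕ) / (8 * (k + 1) : ℝ))) +
        (T * μ).choose T * (2 * x.length / (48 * μ * x.length)) ^ T)) ≤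
      (((8 * (k + 1) * W + T * μ) * x.length + 1 : ℕ) : ℝ) *
        (18 * (T * μ : ℕ) * Real.exp (-(2 * T))) := by
    refine mul_le_mul_of_nonneg_left ?_ (Nat.cast_nonneg _)
    calc _ ≤ 2 * ((T * μ : ℕ) : ℝ) * (8 * Real.exp (-(2 * T)) + Real.exp (-(2 * T))) := by gcongr
      _ = _ := by ring
  rw [hlen]
  have h7 := abs_le.1 (h1.trans h6)
  rw [abs_le] at h2 h3 ⊢
  constructor <;> linarith [h2.1, h2.2, h3.1, h3.2, h7.1, h7.2]

theorem iter {K T μ B : ℕ} (hKμ : K ≤ μ) (hT : 1 ≤ T) (hp : ((T * μ) ^ T + 1) ^ T < 2 ^ (T * μ))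
    (hB : B = 20736 * K * T * μ ^ 2) (j : ℕ) (hj : 2 ^ j ≤ K) :
    ∃ x y : List Bool, x ≠ y ∧ x.length * B ≤ B ^ 2 ^ j ∧
      Mt (2 ^ j - 1) (((B ^ 2 ^ j : ℕ) : ℝ) ^ 4 * Real.exp (-(2 * T))) x y := by
  induction j with
  | zero =>
    refine ⟨[false], [true], by simp, by simp, rfl, fun g hg => ?_⟩
    obtain ⟨P, hP, H⟩ := hg.2 1
    have hP0 : P = ∅ := card_eq_zero.1 (by simpa using hP)
    have h1 : g [true] = g [false] := H _ _ rfl rfl (by simp [hP0])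
    simp only [Ev_cons, Ev_nil, h1, sub_self, abs_zero]
    positivity
  | succ j ih =>
    have h0 : 0 < 2 ^ j := by positivity
    rw [pow_succ] at hj
    obtain ⟨x, y, hne, hl, hM⟩ := ih (by omega)
    obtain ⟨X, Y, hXY, hL, hM'⟩ := level hM (by positivity) hne (K := K) (by omega) hKμ hT hp
    rw [← hB] at hL
    have hK : 1 ≤ K := by omega
    have hμ : 1 ≤ μ := by omega
    have hm : 36 * (T * μ) ≤ B := by
      rw [hB]
      calc 36 * (T * μ) = 36 * 1 * T * μ ^ 1 := by ring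
        _ ≤ _ := by gcongr <;> omega
    have hm1 : 1 ≤ T * μ := Nat.mul_pos hT hμ
    have hBb : B ≤ B ^ 2 ^ j := Nat.le_self_pow h0.ne' B
    have e : B ^ 2 ^ (j + 1) = (B ^ 2 ^ j) ^ 2 := by rw [pow_succ, pow_mul]
    have hX : X.length * B ≤ (B ^ 2 ^ j) ^ 2 := by
      calc X.length * B ≤ B * x.length ^ 2 * B := by gcongr
        _ = (x.length * B) ^ 2 := by ring
        _ ≤ _ := by gcongr
    refine ⟨X, Y, hXY, e ▸ hX, hM'.1, fun g hg => ?_⟩
    have h1 := hM'.2 g (hg.mono (by rw [pow_succ]; omega))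
    refine h1.trans ?_
    rw [e]
    generalize B ^ 2 ^ j = b at *
    generalize T * μ = m at *
    have h2 : 8 * b ^ 4 * m ^ 2 + (X.length + 1) * (18 * m) ≤ (b ^ 2) ^ 4 := by
      have h3 : 8 * m ^ 2 ≤ b ^ 2 := by nlinarith
      have h4 : (X.length + 1) * (18 * m) ≤ 2 * b ^ 2 := by nlinarith
      have h5 : 36 ≤ b := by omega
      have h6 : b ^ 2 ≤ b ^ 6 := Nat.pow_le_pow_right (by omega) (by norm_num)
      have h7 : 3 ≤ b ^ 2 := by nlinarith
      calc _ = b ^ 4 * (8 * m ^ 2) + (X.length + 1) * (18 * m) := by ring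
        _ ≤ b ^ 4 * b ^ 2 + 2 * b ^ 6 := Nat.add_le_add (Nat.mul_le_mul_left _ h3) (by omega)
        _ = 3 * b ^ 6 := by ring
        _ ≤ b ^ 2 * b ^ 6 := by gcongr
        _ = _ := by ring
    have h3 : (8 * (b : ℝ) ^ 4 * m ^ 2 + (X.length + 1) * (18 * m)) ≤ ((b : ℝ) ^ 2) ^ 4 := by
      exact_mod_cast h2
    push_cast
    calc _ = (8 * (b : ℝ) ^ 4 * m ^ 2 + (X.length + 1) * (18 * m)) * Real.exp (-(2 * T)) := by ring
      _ ≤ _ := by gcongr

theorem pigeon {T : ℕ} (hT : 16 ≤ T) :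
    3 * Nat.log 2 T + 4 ≤ T ∧ ((T * (T * (3 * Nat.log 2 T + 4))) ^ T + 1) ^ T <
      2 ^ (T * (T * (3 * Nat.log 2 T + 4))) := by
  have h1 : 2 ^ Nat.log 2 T ≤ T := Nat.pow_log_le_self 2 (by omega)
  have h2 : T < 2 ^ (Nat.log 2 T + 1) := Nat.lt_pow_succ_log_self (by norm_num) T
  have h3 : 4 ≤ Nat.log 2 T := Nat.le_log_of_pow_le (by norm_num) (by omega)
  generalize Nat.log 2 T = l at *
  have h4 : 3 * l + 4 ≤ 2 ^ l := by
    clear h1 h2
    induction l, h3 using Nat.le_induction with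
    | base => norm_num
    | succ l _ ih => rw [pow_succ]; omega
  refine ⟨by omega, ?_⟩
  have h5 : T * (T * (3 * l + 4)) < 2 ^ (3 * l + 3) := by
    calc T * (T * (3 * l + 4)) ≤ T * (T * T) := by gcongr; omega
      _ = T ^ 3 := by ring
      _ < (2 ^ (l + 1)) ^ 3 := by gcongr
      _ = _ := by rw [← pow_mul]; ring_nf
  have h6 : (T * (T * (3 * l + 4))) ^ T + 1 ≤ (2 ^ (3 * l + 3)) ^ T :=
    Nat.pow_lt_pow_left h5 (by omega)
  calc _ ≤ ((2 ^ (3 * l + 3)) ^ T) ^ T := by gcongr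
    _ = 2 ^ (T * (T * (3 * l + 3))) := by rw [← pow_mul, ← pow_mul]; ring_nf
    _ < _ := by
      refine Nat.pow_lt_pow_right (by norm_num) ?_
      gcongr
      omega

theorem main {j k T n : ℕ} (hk : k + 1 = 2 ^ j) (hT : (4000000 : ℝ) ≤ T)
    (hkT : 4000000 * k * Real.log T ≤ T)
    (hn : (4000000 * k * (T : ℝ) ^ 3 * Real.log T ^ 2) ^ k ≤ n) :
    ∃ x y : List Bool, x ≠ y ∧ x.length = n ∧ Mt k (Real.exp (-T) / 3 ^ k) x y := by
  have hT' : 4000000 ≤ T := by exact_mod_cast hT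
  have hT0 : (0 : ℝ) < T := by linarith
  obtain ⟨hL, hp⟩ := pigeon (T := T) (by omega)
  have hl1 : 1 ≤ Real.log T := by
    rw [Real.le_log_iff_exp_le hT0]
    linarith [Real.exp_one_lt_d9]
  have hL9 : ((3 * Nat.log 2 T + 4 : ℕ) : ℝ) ≤ 9 * Real.log T := by
    have h1 : ((2 : ℝ) ^ Nat.log 2 T) ≤ T := by exact_mod_cast Nat.pow_log_le_self 2 (by omega)
    have h2 := Real.log_le_log (by positivity) h1
    rw [Real.log_pow] at h2
    have h3 := Real.log_two_gt_d9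
    have h4 : (0 : ℝ) ≤ Nat.log 2 T := Nat.cast_nonneg _
    push_cast
    nlinarith
  have hL1 : 1 ≤ 3 * Nat.log 2 T + 4 := by omega
  generalize 3 * Nat.log 2 T + 4 = L at *
  have hk0 : (0 : ℝ) ≤ k := k.cast_nonneg
  have hlT : 100 * Real.log T ≤ T := by
    have h1 : Real.log T = 2 * Real.log √(T : ℝ) := by rw [Real.log_sqrt hT0.le]; ring
    have h2 := Real.log_le_sub_one_of_pos (Real.sqrt_pos.2 hT0)
    have h3 : 200 ≤ √(T : ℝ) := Real.le_sqrt_of_sq_le (by linarith)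
    nlinarith [Real.sq_sqrt hT0.le]
  have hK : 40 * ((k : ℝ) + 1) * Real.log T ≤ T := by nlinarith
  have hKT : k + 1 ≤ T := by
    have : (k : ℝ) + 1 ≤ T := by nlinarith
    exact_mod_cast this
  obtain ⟨B, hB⟩ : ∃ B, B = 20736 * (k + 1) * T * (T * L) ^ 2 := ⟨_, rfl⟩
  obtain ⟨x, y, hne, hl, hM⟩ := iter (hKT.trans (Nat.le_mul_of_pos_right T hL1)) (by omega) hp hB j
    hk.ge
  rw [← hk] at hl hM
  have hB3 : 3 ≤ B := by
    rw [hB]
    calc 3 = 3 * 1 * 1 * (1 * 1) ^ 2 := by norm_num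
      _ ≤ _ := by gcongr <;> omega
  have hxn : x.length ≤ n := by
    rw [pow_succ] at hl
    have h1 : x.length ≤ B ^ k := Nat.le_of_mul_le_mul_right hl (by omega)
    have h2 : (B : ℝ) ^ k ≤ (4000000 * k * (T : ℝ) ^ 3 * Real.log T ^ 2) ^ k := by
      rcases Nat.eq_zero_or_pos k with h | h
      · simp [h]
      have h3 : (1 : ℝ) ≤ k := by exact_mod_cast h
      refine pow_le_pow_left₀ B.cast_nonneg ?_ k
      rw [hB]
      push_cast
      calc _ ≤ 20736 * (2 * (k : ℝ)) * T * (T * (9 * Real.log T)) ^ 2 := by gcongr; linarith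
        _ = 3359232 * k * (T : ℝ) ^ 3 * Real.log T ^ 2 := by ring
        _ ≤ _ := by gcongr; norm_num
    have h3 : (x.length : ℝ) ≤ (B : ℝ) ^ k := by exact_mod_cast h1
    exact_mod_cast h3.trans (h2.trans hn)
  have hBT : B ≤ T ^ 7 := by
    rw [hB]
    calc _ ≤ T * T * T * (T * T) ^ 2 := by gcongr; omega
      _ = _ := by ring
  have hE : ((B ^ (k + 1) : ℕ) : ℝ) ^ 4 * 3 ^ k ≤ Real.exp T := by
    have h1 : (B ^ (k + 1)) ^ 4 * 3 ^ k ≤ T ^ (35 * (k + 1)) := by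
      calc (B ^ (k + 1)) ^ 4 * 3 ^ k ≤ (B ^ (k + 1)) ^ 4 * B ^ (k + 1) := by
            exact Nat.mul_le_mul_left _ ((Nat.pow_le_pow_left hB3 k).trans
              (Nat.pow_le_pow_right (by omega) (Nat.le_succ k)))
        _ ≤ ((T ^ 7) ^ (k + 1)) ^ 4 * (T ^ 7) ^ (k + 1) := by gcongr
        _ = _ := by ring
    have h2 : ((B ^ (k + 1) : ℕ) : ℝ) ^ 4 * 3 ^ k ≤ (T : ℝ) ^ (35 * (k + 1)) := by
      exact_mod_cast h1
    refine h2.trans ?_
    rw [← Real.exp_log (pow_pos hT0 _), Real.exp_le_exp, Real.log_pow]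
    push_cast
    nlinarith
  have hM' := hM.append (zw (n - x.length))
  refine ⟨_, _, fun h0 => hne (List.append_cancel_right h0), ?_, hM'.1, fun g hg =>
    (hM'.2 g (by simpa using hg)).trans ?_⟩
  · rw [List.length_append, zw_length]
    omega
  · rw [le_div_iff₀ (by positivity)]
    calc _ = ((B ^ (k + 1) : ℕ) : ℝ) ^ 4 * 3 ^ k * Real.exp (-(2 * T)) := by ring
      _ ≤ Real.exp T * Real.exp (-(2 * T)) := by gcongr
      _ = _ := by rw [← Real.exp_add]; ring_nf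

end Pool.Agent.Lib.MP_343fe0_pr.Ju
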